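import Mathlib

open MeasureTheory Set Metric Complex
open scoped ENNReal Real

namespace Pool.Agent.Results.MP_ad51a3_an.MinSphericalArea

/-- The class `S`: holomorphic and injective on the open unit disc, `f 0 = 0`, `f' 0 = 1`. -/
structure ClassS (f : ℂ → ℂ) : Prop where
  analytic : DifferentiableOn ℂ f (ball 0 1)
  univalent : InjOn f (ball 0 1)
  map_zero : f 0 = 0
  deriv_zero : deriv f 0 = 1

/-- The spherical area (unit sphere, stereographic projection) of a plane set. -/
noncomputable def sphericalArea (A : Set ℂ) : ℝ≥0∞ :=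
  ∫⁻ w in A, ENNReal.ofReal (4 / (1 + ‖w‖ ^ 2) ^ 2)

/-- The spherical area of the image of the open unit disc under `f`. -/
noncomputable def imageArea (f : ℂ → ℂ) : ℝ≥0∞ := sphericalArea (f '' ball 0 1)

lemma lint_inner (R c : ℝ) (hR : 0 < R) :
    ∫⁻ r in Ioi (0:ℝ), ENNReal.ofReal (c - r / (2 * R)) ≤
      if 0 < c then ENNReal.ofReal (R * c ^ 2) else 0 := by
  split_ifs with hc
  · have h1 : ∫⁻ r in Ioi (0:ℝ), ENNReal.ofReal (c - r / (2 * R)) =
        ∫⁻ r in Ioc (0:ℝ) (2 * R * c), ENNReal.ofReal (c - r / (2 * R)) := by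
      have hdisj : Ioi (0:ℝ) = Ioc 0 (2 * R * c) ∪ Ioi (2 * R * c) :=
        (Ioc_union_Ioi_eq_Ioi (by positivity)).symm
      rw [hdisj, lintegral_union measurableSet_Ioi]
      · have h0 : ∫⁻ r in Ioi (2 * R * c), ENNReal.ofReal (c - r / (2 * R)) = 0 := by
          rw [setLIntegral_congr_fun (g := fun _ => 0) measurableSet_Ioi]
          · simp
          · intro r hr
            simp only [mem_Ioi] at hr
            apply ENNReal.ofReal_of_nonpos
            rw [sub_nonpos, le_div_iff₀ (by positivity)]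
            linarith
        rw [h0, add_zero]
      · rw [Set.disjoint_left]
        intro x hx hx'
        exact absurd hx.2 (not_le.mpr hx')
    rw [h1, ← ofReal_integral_eq_lintegral_ofReal]
    · apply ENNReal.ofReal_le_ofReal
      rw [← intervalIntegral.integral_of_le (by positivity)]
      have : ∫ x in (0:ℝ)..2 * R * c, (c - x / (2 * R)) = R * c ^ 2 := by
        rw [intervalIntegral.integral_sub (by simp) (by
          apply Continuous.intervalIntegrable; fun_prop)]
        rw [intervalIntegral.integral_div, integral_id, intervalIntegral.integral_const]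
        field_simp
        ring
      rw [this]
    · apply (Continuous.integrableOn_Icc (by fun_prop)).mono_set Ioc_subset_Icc_self
    · rw [Filter.EventuallyLE, ae_restrict_iff' measurableSet_Ioc]
      refine Filter.Eventually.of_forall fun r hr => ?_
      simp only [Pi.zero_apply, sub_nonneg]
      rw [div_le_iff₀ (by positivity)]
      linarith [hr.2]
  · rw [setLIntegral_congr_fun (g := fun _ => 0) measurableSet_Ioi]
    · simp
    · intro r hr
      simp only [mem_Ioi] at hr
      apply ENNReal.ofReal_of_nonpos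
      have : 0 < r / (2 * R) := by positivity
      linarith

lemma lint_outer (R : ℝ) (hR : 0 < R) :
    ∫⁻ θ in Ioo (-π) π, (if 0 < Real.cos θ then ENNReal.ofReal (R * Real.cos θ ^ 2) else 0) ≤
      ENNReal.ofReal (π * R / 2) := by
  have h1 : ∫⁻ θ in Ioo (-π) π, (if 0 < Real.cos θ then ENNReal.ofReal (R * Real.cos θ ^ 2) else 0)
      ≤ ∫⁻ θ in Ioc (-(π/2)) (π/2), ENNReal.ofReal (R * Real.cos θ ^ 2) := by
    rw [← lintegral_indicator measurableSet_Ioo, ← lintegral_indicator measurableSet_Ioc]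
    apply lintegral_mono
    intro θ
    simp only [indicator]
    by_cases h : θ ∈ Ioo (-π) π
    · by_cases hc : 0 < Real.cos θ
      · have : θ ∈ Ioc (-(π/2)) (π/2) := by
          constructor
          · by_contra hh
            push Not at hh
            have := Real.cos_nonpos_of_pi_div_two_le_of_le (x := -θ) (by linarith) (by linarith [h.1, Real.pi_pos])
            rw [Real.cos_neg] at this
            linarith
          · by_contra hh
            push Not at hh
            have := Real.cos_nonpos_of_pi_div_two_le_of_le (x := θ) (by linarith) (by linarith [h.2, Real.pi_pos])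
            linarith
        simp [h, hc, this]
      · simp [hc]
    · simp [h]
  refine h1.trans ?_
  rw [← ofReal_integral_eq_lintegral_ofReal]
  · apply ENNReal.ofReal_le_ofReal
    rw [← intervalIntegral.integral_of_le (by linarith [Real.pi_pos])]
    rw [intervalIntegral.integral_const_mul, integral_cos_sq]
    simp
    ring_nf
    rfl
  · apply (Continuous.integrableOn_Icc (by fun_prop)).mono_set Ioc_subset_Icc_self
  · exact Filter.Eventually.of_forall fun r => by positivity

lemma lint_total (R : ℝ) (hR : 0 < R) :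
    ∫⁻ η : ℂ, ENNReal.ofReal ((η⁻¹).re - 1 / (2 * R)) ≤ ENNReal.ofReal (π * R / 2) := by
  rw [← Complex.lintegral_comp_polarCoord_symm]
  have h1 : ∫⁻ p in polarCoord.target, ENNReal.ofReal p.1 •
      ENNReal.ofReal (((Complex.polarCoord.symm p)⁻¹).re - 1 / (2 * R)) =
      ∫⁻ p in (Ioi (0:ℝ)) ×ˢ (Ioo (-π) π), ENNReal.ofReal (Real.cos p.2 - p.1 / (2 * R)) := by
    change ∫⁻ p in (Ioi (0:ℝ)) ×ˢ (Ioo (-π) π), _ = _
    apply setLIntegral_congr_fun (measurableSet_Ioi.prod measurableSet_Ioo)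
    rintro ⟨r, θ⟩ ⟨hr, -⟩
    simp only [mem_Ioi] at hr
    simp only [smul_eq_mul]
    rw [← ENNReal.ofReal_mul hr.le]
    congr 1
    simp only [Complex.polarCoord_symm_apply]
    rw [mul_inv, ← ofReal_inv, re_ofReal_mul]
    have : ((Real.cos θ + Real.sin θ * I : ℂ)⁻¹).re = Real.cos θ := by
      rw [Complex.inv_re]
      have : normSq (Real.cos θ + Real.sin θ * I : ℂ) = 1 := by
        rw [Complex.normSq_add_mul_I]
        exact Real.cos_sq_add_sin_sq θ
      rw [this]
      simp [Complex.cos_ofReal_re]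
    rw [this]
    field_simp
  rw [h1, Measure.volume_eq_prod, ← Measure.prod_restrict, lintegral_prod_symm' _ (by fun_prop)]
  calc _ ≤ ∫⁻ θ in Ioo (-π) π, (if 0 < Real.cos θ then ENNReal.ofReal (R * Real.cos θ ^ 2) else 0) := by
        apply lintegral_mono
        intro θ
        exact lint_inner R _ hR
    _ ≤ _ := lint_outer R hR

/-- Ahlfors-Beurling estimate. -/
lemma ahlfors_beurling_re (E : Set ℂ) (hfin : volume E ≠ ⊤)
    (hint : IntegrableOn (fun η : ℂ => (η⁻¹).re) E) :
    ∫ η in E, (η⁻¹).re ≤ Real.sqrt (π * volume.real E) := by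
  rcases (measureReal_nonneg (μ := volume) (s := E)).eq_or_lt with h0 | hpos
  · have : volume E = 0 := by
      rw [Measure.real, eq_comm, ENNReal.toReal_eq_zero_iff] at h0
      exact h0.resolve_right hfin
    rw [setIntegral_measure_zero _ this]
    positivity
  · set e := volume.real E with he
    set R := Real.sqrt (e / π) with hRdef
    have hR : 0 < R := Real.sqrt_pos.mpr (div_pos hpos Real.pi_pos)
    have hR2 : π * R ^ 2 = e := by
      rw [hRdef, Real.sq_sqrt (div_pos hpos Real.pi_pos).le]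
      field_simp
    have hint2 : IntegrableOn (fun η : ℂ => (η⁻¹).re - 1 / (2 * R)) E :=
      hint.sub (integrableOn_const hfin)
    have h1 : ∫ η in E, (η⁻¹).re = (∫ η in E, ((η⁻¹).re - 1 / (2 * R))) + e / (2 * R) := by
      rw [integral_sub hint (integrableOn_const hfin), setIntegral_const]
      simp [he]
      ring
    have h2 : ∫ η in E, ((η⁻¹).re - 1 / (2 * R)) ≤ π * R / 2 := by
      have h3 : ∫⁻ η in E, ENNReal.ofReal ((η⁻¹).re - 1 / (2 * R)) ≤ ENNReal.ofReal (π * R / 2) :=
        (setLIntegral_le_lintegral _ _).trans (lint_total R hR)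
      rw [integral_eq_lintegral_pos_part_sub_lintegral_neg_part hint2]
      have h4 := ENNReal.toReal_mono ENNReal.ofReal_ne_top h3
      rw [ENNReal.toReal_ofReal (by positivity)] at h4
      have h5 : 0 ≤ (∫⁻ η in E, ENNReal.ofReal (-((η⁻¹).re - 1 / (2 * R)))).toReal :=
        ENNReal.toReal_nonneg
      linarith
    have h6 : Real.sqrt (π * e) = π * R := by
      rw [← hR2, show π * (π * R ^ 2) = (π * R) ^ 2 by ring, Real.sqrt_sq (by positivity)]
    rw [h6, h1]
    have h7 : e / (2 * R) = π * R / 2 := by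
      rw [← hR2]; field_simp
    linarith

/-- omitted set of 1/f -/
def omitted (f : ℂ → ℂ) : Set ℂ := {w | ∀ z ∈ ball (0:ℂ) 1, w * f z ≠ 1}

lemma ClassS.isOpen_image {f : ℂ → ℂ} (hf : ClassS f) : IsOpen (f '' ball 0 1) := by
  have hA : AnalyticOnNhd ℂ f (ball 0 1) := hf.analytic.analyticOnNhd isOpen_ball
  rcases hA.is_constant_or_isOpen (convex_ball 0 1).isPreconnected with ⟨w, hw⟩ | h
  · exfalso
    have h1 := hw 0 (by simp)
    have h2 := hw (1/2) (by simp; norm_num)
    have h3 := hf.univalent (show (0:ℂ) ∈ ball (0:ℂ) 1 by simp) (show (1/2:ℂ) ∈ ball (0:ℂ) 1 by simp; norm_num) (h1.trans h2.symm)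
    norm_num at h3
  · exact h _ subset_rfl isOpen_ball

lemma ClassS.zero_mem {f : ℂ → ℂ} (hf : ClassS f) : (0:ℂ) ∈ f '' ball 0 1 :=
  ⟨0, by simp, hf.map_zero⟩

lemma mem_omitted_iff {f : ℂ → ℂ} (hf : ClassS f) (w : ℂ) :
    w ∈ omitted f ↔ w = 0 ∨ w⁻¹ ∉ f '' ball 0 1 := by
  constructor
  · intro h
    by_cases hw : w = 0
    · exact Or.inl hw
    · right
      rintro ⟨z, hz, hzw⟩
      exact h z hz (by rw [hzw, mul_inv_cancel₀ hw])
  · rintro (h | h) z hz h1
    · rw [h] at h1; simp at h1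
    · apply h
      refine ⟨z, hz, ?_⟩
      exact (inv_eq_of_mul_eq_one_right h1).symm

lemma ClassS.isClosed_omitted {f : ℂ → ℂ} (hf : ClassS f) : IsClosed (omitted f) := by
  rw [← isOpen_compl_iff]
  have : (omitted f)ᶜ = {w : ℂ | w ≠ 0} ∩ (fun w : ℂ => w⁻¹) ⁻¹' (f '' ball 0 1) := by
    ext w
    simp only [mem_compl_iff, mem_omitted_iff hf, mem_inter_iff, mem_ofPred_eq, mem_preimage]
    tauto
  rw [this]
  apply ContinuousOn.isOpen_inter_preimage
  · intro w hw
    exact (continuousAt_inv₀ hw).continuousWithinAt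
  · exact isOpen_ne
  · exact hf.isOpen_image

lemma ClassS.isBounded_omitted {f : ℂ → ℂ} (hf : ClassS f) : Bornology.IsBounded (omitted f) := by
  obtain ⟨δ, hδ, hball⟩ := Metric.isOpen_iff.mp hf.isOpen_image 0 hf.zero_mem
  rw [isBounded_iff_forall_norm_le]
  refine ⟨δ⁻¹, fun w hw => ?_⟩
  rcases (mem_omitted_iff hf w).mp hw with h | h
  · rw [h]; simp; exact hδ.le
  · by_contra hcon
    push Not at hcon
    apply h
    apply hball
    simp only [mem_ball, dist_zero_right, norm_inv]
    exact inv_lt_of_inv_lt₀ hδ hcon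

lemma ClassS.isCompact_omitted {f : ℂ → ℂ} (hf : ClassS f) : IsCompact (omitted f) :=
  isCompact_of_isClosed_isBounded hf.isClosed_omitted hf.isBounded_omitted

/-- Cauchy type transform of the omitted set -/
noncomputable def cauchyT (E : Set ℂ) (t : ℂ) : ℂ := ∫ ζ in E, t / (ζ * t - 1)

lemma cauchyT_hasDerivAt {E Ω : Set ℂ} (hE : IsCompact E) (hΩ : IsOpen Ω)
    (hne : ∀ ζ ∈ E, ∀ t ∈ Ω, ζ * t - 1 ≠ 0) {t₀ : ℂ} (ht₀ : t₀ ∈ Ω) :
    HasDerivAt (cauchyT E) (∫ ζ in E, -1 / (ζ * t₀ - 1) ^ 2) t₀ := by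
  rcases E.eq_empty_or_nonempty with rfl | hEne
  · simp only [Measure.restrict_empty, integral_zero_measure]
    have : cauchyT ∅ = fun _ => 0 := by
      ext t; simp [cauchyT]
    rw [this]
    exact hasDerivAt_const _ _
  obtain ⟨r, hr, hball⟩ := Metric.isOpen_iff.mp hΩ t₀ ht₀
  have hK : IsCompact (E ×ˢ closedBall t₀ (r/2)) := hE.prod (isCompact_closedBall _ _)
  have hsub : closedBall t₀ (r/2) ⊆ Ω := (closedBall_subset_ball (by linarith)).trans hball
  obtain ⟨p, hp, hmin⟩ := hK.exists_isMinOn (hEne.prod ⟨t₀, mem_closedBall_self (by linarith)⟩)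
    (f := fun p : ℂ × ℂ => ‖p.1 * p.2 - 1‖) (by fun_prop)
  set m := ‖p.1 * p.2 - 1‖ with hm
  have hmpos : 0 < m := norm_pos_iff.mpr (hne p.1 hp.1 p.2 (hsub hp.2))
  have hlow : ∀ ζ ∈ E, ∀ t ∈ closedBall t₀ (r/2), m ≤ ‖ζ * t - 1‖ := fun ζ hζ t ht =>
    isMinOn_iff.mp hmin (ζ, t) ⟨hζ, ht⟩
  have hEm : MeasurableSet E := hE.measurableSet
  have hfin : volume E ≠ ⊤ := hE.measure_lt_top.ne
  have key := hasDerivAt_integral_of_dominated_loc_of_deriv_le (μ := volume.restrict E)
    (F := fun t ζ => t / (ζ * t - 1)) (F' := fun t ζ => -1 / (ζ * t - 1) ^ 2) (x₀ := t₀)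
    (s := ball t₀ (r/2)) (bound := fun _ => 1 / m ^ 2) (ball_mem_nhds _ (by linarith))
    (Filter.Eventually.of_forall fun t => by
      apply Measurable.aestronglyMeasurable
      fun_prop)
    (by
      refine Measure.integrableOn_of_bounded (M := ‖t₀‖ / m) hfin ?_ ?_
      · apply Measurable.aestronglyMeasurable
        fun_prop
      · rw [ae_restrict_iff' hEm]
        refine Filter.Eventually.of_forall fun ζ hζ => ?_
        rw [norm_div]
        gcongr
        exact hlow ζ hζ t₀ (mem_closedBall_self (by linarith)))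
    (by
      apply Measurable.aestronglyMeasurable
      fun_prop)
    (by
      rw [ae_restrict_iff' hEm]
      refine Filter.Eventually.of_forall fun ζ hζ t ht => ?_
      rw [norm_div, norm_neg, norm_one, norm_pow]
      gcongr
      exact hlow ζ hζ t (ball_subset_closedBall ht))
    (by
      exact integrableOn_const hfin)
    (by
      rw [ae_restrict_iff' hEm]
      refine Filter.Eventually.of_forall fun ζ hζ t ht => ?_
      have hne' : ζ * t - 1 ≠ 0 := hne ζ hζ t (hsub (ball_subset_closedBall ht))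
      have h1 : HasDerivAt (fun t => ζ * t - 1) ζ t := by
        simpa using ((hasDerivAt_id t).const_mul ζ).sub_const 1
      have h2 := (hasDerivAt_id t).div h1 hne'
      have h3 : (1 * (ζ * t - 1) - id t * ζ) / (ζ * t - 1) ^ 2 = -1 / (ζ * t - 1) ^ 2 := by
        congr 1
        simp only [id]
        ring
      rw [h3] at h2
      exact h2)
  exact key.2

lemma norm_cauchyT_le {E : Set ℂ} (hE : IsCompact E) {t : ℂ} (hne : ∀ ζ ∈ E, ζ * t - 1 ≠ 0) :
    ‖cauchyT E t‖ ≤ Real.sqrt (π * volume.real E) := by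
  by_cases ht : t = 0
  · rw [ht]; simp only [cauchyT, zero_div, integral_zero, norm_zero]; positivity
  have hEm : MeasurableSet E := hE.measurableSet
  have hfin : volume E ≠ ⊤ := hE.measure_lt_top.ne
  set I := cauchyT E t with hI
  -- unimodular constant
  obtain ⟨u, hu⟩ : ∃ u : Circle, (u : ℂ) * I = ‖I‖ := by
    by_cases hI0 : I = 0
    · exact ⟨1, by simp [hI0]⟩
    · have hn : (‖I‖ : ℂ) ≠ 0 := by simpa using hI0
      refine ⟨⟨(starRingEnd ℂ I) / ‖I‖, by simp [Submonoid.unitSphere, hI0]⟩, ?_⟩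
      simp only
      rw [div_mul_eq_mul_div, mul_comm, Complex.mul_conj, Complex.normSq_eq_norm_sq]
      push_cast
      field_simp
  set w := t⁻¹ with hw
  let S : ℂ → ℂ := fun η => u * η + w
  have hS : MeasurePreserving S volume volume :=
    (measurePreserving_add_right volume w).comp (rotation u).measurePreserving
  have hSe : MeasurableEmbedding S :=
    (measurableEmbedding_addRight w).comp (rotation u).toHomeomorph.measurableEmbedding
  have hcont : ContinuousOn (fun ζ : ℂ => (u : ℂ) * (t / (ζ * t - 1))) E := by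
    intro ζ hζ
    have := hne ζ hζ
    apply ContinuousAt.continuousWithinAt
    fun_prop (disch := assumption)
  have hint0 : IntegrableOn (fun ζ : ℂ => (u : ℂ) * (t / (ζ * t - 1))) E :=
    hcont.integrableOn_compact hE
  have h1 : (‖I‖ : ℝ) = ∫ ζ in E, ((u : ℂ) * (t / (ζ * t - 1))).re := by
    have h := integral_re hint0
    have h' : (∫ ζ in E, (u : ℂ) * (t / (ζ * t - 1))).re = ‖I‖ := by
      rw [integral_const_mul]
      change ((u : ℂ) * I).re = ‖I‖
      rw [hu]; simp
    rw [← h']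
    exact h.symm
  have h2 : ∀ ζ ∈ E, ((u : ℂ) * (t / (ζ * t - 1))).re = ((u : ℂ) / (ζ - w)).re := by
    intro ζ hζ
    have := hne ζ hζ
    congr 1
    rw [hw]
    have h3 : ζ - t⁻¹ ≠ 0 := by
      intro h
      apply this
      rw [sub_eq_zero] at h
      rw [h]; field_simp; ring
    field_simp
  have h4 : ∀ η ∈ S ⁻¹' E, ((u : ℂ) / (S η - w)).re = (η⁻¹).re := by
    intro η _
    congr 1
    simp only [S, add_sub_cancel_right]
    rw [div_mul_eq_div_div, div_self u.coe_ne_zero, one_div]
  have h5 : ‖I‖ = ∫ η in S ⁻¹' E, (η⁻¹).re := by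
    rw [h1, setIntegral_congr_fun hEm h2, ← hS.setIntegral_preimage_emb hSe]
    exact setIntegral_congr_fun (hS.measurable hEm) h4
  have hvol : volume (S ⁻¹' E) = volume E := hS.measure_preimage hEm.nullMeasurableSet
  have hint1 : IntegrableOn (fun ζ : ℂ => ((u : ℂ) / (ζ - w)).re) E := by
    refine IntegrableOn.congr_fun hint0.re ?_ hEm
    intro ζ hζ
    exact h2 ζ hζ
  have hint2 : IntegrableOn (fun η : ℂ => (η⁻¹).re) (S ⁻¹' E) := by
    have := (hS.integrableOn_comp_preimage hSe (f := fun ζ : ℂ => ((u : ℂ) / (ζ - w)).re) (s := E)).mpr hint1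
    exact this.congr_fun h4 (hS.measurable hEm)
  have h6 := ahlfors_beurling_re (S ⁻¹' E) (by rw [hvol]; exact hfin) hint2
  rw [h5]
  have h7 : volume.real (S ⁻¹' E) = volume.real E := by
    rw [Measure.real, Measure.real, hvol]
  rw [← h7]
  exact h6

/-- area theorem -/
lemma ClassS.volume_omitted_le {f : ℂ → ℂ} (hf : ClassS f) :
    volume (omitted f) ≤ ENNReal.ofReal π := by
  set E := omitted f with hEdef
  have hE : IsCompact E := hf.isCompact_omitted
  have hfin : volume E ≠ ⊤ := hE.measure_lt_top.ne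
  have hne : ∀ ζ ∈ E, ∀ t ∈ f '' ball 0 1, ζ * t - 1 ≠ 0 := by
    rintro ζ hζ _ ⟨z, hz, rfl⟩ h
    exact hζ z hz (by linear_combination h)
  have hd : DifferentiableOn ℂ (fun z => cauchyT E (f z)) (ball 0 1) := by
    intro z hz
    have h1 := cauchyT_hasDerivAt hE hf.isOpen_image hne (mem_image_of_mem f hz)
    have h2 := (hf.analytic.differentiableAt (isOpen_ball.mem_nhds hz)).hasDerivAt
    exact (h1.comp z h2).differentiableAt.differentiableWithinAt
  have h0 : cauchyT E (f 0) = 0 := by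
    rw [hf.map_zero]; simp [cauchyT]
  have hder : deriv (fun z => cauchyT E (f z)) 0 = -(volume.real E : ℂ) := by
    have h1 := cauchyT_hasDerivAt hE hf.isOpen_image hne (mem_image_of_mem f (show (0:ℂ) ∈ ball (0:ℂ) 1 by simp))
    have h2 := (hf.analytic.differentiableAt (isOpen_ball.mem_nhds (show (0:ℂ) ∈ ball (0:ℂ) 1 by simp))).hasDerivAt
    have h3 := (h1.comp (0:ℂ) h2).deriv
    rw [hf.deriv_zero, mul_one, hf.map_zero] at h3
    rw [show (fun z => cauchyT E (f z)) = cauchyT E ∘ f from rfl, h3]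
    simp [Measure.real]
  have hb : ‖deriv (fun z => cauchyT E (f z)) 0‖ ≤ Real.sqrt (π * volume.real E) / 1 := by
    apply Complex.norm_deriv_le_div_of_mapsTo_ball hd _ one_pos
    intro z hz
    rw [h0, mem_closedBall, dist_zero_right]
    exact norm_cauchyT_le hE (fun ζ hζ => hne ζ hζ _ (mem_image_of_mem f hz))
  rw [hder, norm_neg, div_one, Complex.norm_real, Real.norm_eq_abs, abs_of_nonneg measureReal_nonneg] at hb
  set e := volume.real E with he
  have he0 : 0 ≤ e := measureReal_nonneg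
  have h8 : e ≤ π := by
    have h9 : e ^ 2 ≤ π * e := by
      calc e ^ 2 ≤ (Real.sqrt (π * e)) ^ 2 := by gcongr
        _ = π * e := Real.sq_sqrt (by positivity)
    rcases he0.eq_or_lt with h | h
    · rw [← h]; positivity
    · nlinarith
  rw [← ENNReal.ofReal_toReal hfin]
  exact ENNReal.ofReal_le_ofReal h8

lemma lintegral_image_complex {s : Set ℂ} (hs : MeasurableSet s) {g g' : ℂ → ℂ}
    (h : ∀ x ∈ s, HasDerivAt g (g' x) x) (inj : InjOn g s) (φ : ℂ → ℝ≥0∞) :
    ∫⁻ x in g '' s, φ x = ∫⁻ x in s, ENNReal.ofReal (‖g' x‖ ^ 2) * φ (g x) := by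
  have h1 := lintegral_image_eq_lintegral_abs_det_fderiv_mul volume hs
    (f' := fun x => (ContinuousLinearMap.toSpanSingleton ℂ (g' x)).restrictScalars ℝ)
    (fun x hx => ((h x hx).hasFDerivAt.restrictScalars ℝ).hasFDerivWithinAt) inj φ
  rw [h1]
  have h2 : ∀ x, |((ContinuousLinearMap.toSpanSingleton ℂ (g' x)).restrictScalars ℝ).det| = ‖g' x‖ ^ 2 := by
    intro x
    simp [ContinuousLinearMap.det, LinearMap.det_restrictScalars, Algebra.norm_complex_eq,
      Complex.normSq_eq_norm_sq]
  simp only [h2]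

lemma sphericalArea_inv {A : Set ℂ} (hA : MeasurableSet A) (h0 : (0:ℂ) ∉ A) :
    sphericalArea ((fun w : ℂ => w⁻¹) '' A) = sphericalArea A := by
  rw [sphericalArea, lintegral_image_complex hA (g' := fun w => -(w ^ 2)⁻¹)
    (fun x hx => hasDerivAt_inv (fun h => h0 (h ▸ hx))) (inv_injective.injOn)]
  apply setLIntegral_congr_fun hA
  intro w hw
  have hw0 : w ≠ 0 := fun h => h0 (h ▸ hw)
  simp only
  rw [← ENNReal.ofReal_mul (by positivity)]
  congr 1
  rw [norm_neg, norm_inv, norm_inv, norm_pow]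
  have : ‖w‖ ≠ 0 := norm_ne_zero_iff.mpr hw0
  field_simp
  ring

lemma sphericalArea_ball : sphericalArea (ball 0 1) = ENNReal.ofReal (2 * π) := by
  rw [sphericalArea, ← lintegral_indicator measurableSet_ball, ← Complex.lintegral_comp_polarCoord_symm]
  have h1 : ∫⁻ p in polarCoord.target, ENNReal.ofReal p.1 •
      (ball (0:ℂ) 1).indicator (fun w => ENNReal.ofReal (4 / (1 + ‖w‖ ^ 2) ^ 2)) (Complex.polarCoord.symm p) =
      ∫⁻ p in (Ioi (0:ℝ)) ×ˢ (Ioo (-π) π),
        (Iio (1:ℝ)).indicator (fun r => ENNReal.ofReal (4 * r / (1 + r ^ 2) ^ 2)) p.1 := by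
    change ∫⁻ p in (Ioi (0:ℝ)) ×ˢ (Ioo (-π) π), _ = _
    apply setLIntegral_congr_fun (measurableSet_Ioi.prod measurableSet_Ioo)
    rintro ⟨r, θ⟩ ⟨hr, -⟩
    simp only [mem_Ioi] at hr
    simp only [smul_eq_mul]
    have hn : ‖Complex.polarCoord.symm (r, θ)‖ = r := by
      rw [Complex.norm_polarCoord_symm]; exact abs_of_pos hr
    by_cases h : r < 1
    · rw [indicator_of_mem (by rw [mem_ball, dist_zero_right, hn]; exact h), indicator_of_mem (by exact h), hn,
        ← ENNReal.ofReal_mul hr.le]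
      congr 1
      ring
    · rw [indicator_of_notMem (by rw [mem_ball, dist_zero_right, hn]; exact h), indicator_of_notMem (by exact h)]
      simp
  rw [h1, Measure.volume_eq_prod, ← Measure.prod_restrict]
  have hmeas : Measurable (fun r : ℝ => (Iio (1:ℝ)).indicator (fun r => ENNReal.ofReal (4 * r / (1 + r ^ 2) ^ 2)) r) := by
    apply Measurable.indicator _ measurableSet_Iio
    fun_prop
  rw [lintegral_prod _ (by exact (hmeas.comp measurable_fst).aemeasurable)]
  simp only [lintegral_const, Measure.restrict_apply_univ, Real.volume_Ioo]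
  rw [lintegral_mul_const _ hmeas]
  have h2 : ∫⁻ r in Ioi (0:ℝ), (Iio (1:ℝ)).indicator (fun r => ENNReal.ofReal (4 * r / (1 + r ^ 2) ^ 2)) r = 1 := by
    rw [lintegral_indicator measurableSet_Iio, Measure.restrict_restrict measurableSet_Iio]
    have : Iio (1:ℝ) ∩ Ioi 0 = Ioo 0 1 := by ext; simp [and_comm]
    rw [this, Measure.restrict_congr_set Ioo_ae_eq_Ioc, ← ofReal_integral_eq_lintegral_ofReal]
    · rw [← intervalIntegral.integral_of_le zero_le_one]
      have hint : ∫ r in (0:ℝ)..1, 4 * r / (1 + r ^ 2) ^ 2 = (-2 / (1 + (1:ℝ) ^ 2)) - (-2 / (1 + (0:ℝ) ^ 2)) := by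
        apply intervalIntegral.integral_eq_sub_of_hasDerivAt (f := fun r : ℝ => -2 / (1 + r ^ 2))
        · intro r _
          have h3 : HasDerivAt (fun r : ℝ => 1 + r ^ 2) (2 * r) r := by
            simpa using (hasDerivAt_pow 2 r).const_add 1
          have h4 := (hasDerivAt_const r (-2:ℝ)).div h3 (by positivity)
          have h5 : (0 * (1 + r ^ 2) - -2 * (2 * r)) / (1 + r ^ 2) ^ 2 = 4 * r / (1 + r ^ 2) ^ 2 := by
            ring
          rw [h5] at h4
          exact h4
        · apply Continuous.intervalIntegrable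
          apply Continuous.div (by fun_prop) (by fun_prop)
          intro r; positivity
      rw [hint]; norm_num
    · apply (Continuous.integrableOn_Icc _).mono_set Ioc_subset_Icc_self
      apply Continuous.div (by fun_prop) (by fun_prop)
      intro r; positivity
    · rw [Filter.EventuallyLE, ae_restrict_iff' measurableSet_Ioc]
      refine Filter.Eventually.of_forall fun r hr => ?_
      have := hr.1
      simp only [Pi.zero_apply]
      positivity
  rw [h2, one_mul]
  congr 1
  ring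

lemma sphericalArea_compl_ball : sphericalArea (ball (0:ℂ) 1)ᶜ = ENNReal.ofReal (2 * π) := by
  have h1 : (ball (0:ℂ) 1)ᶜ = (fun w : ℂ => w⁻¹) '' (closedBall 0 1 \ {0}) := by
    ext w
    simp only [mem_compl_iff, mem_ball, dist_zero_right, not_lt, mem_image, mem_sdiff, mem_closedBall,
      mem_singleton_iff]
    constructor
    · intro h
      have hw : 0 < ‖w‖ := by linarith
      refine ⟨w⁻¹, ⟨?_, ?_⟩, inv_inv w⟩
      · rw [norm_inv]; exact inv_le_one_of_one_le₀ h
      · exact inv_ne_zero (norm_pos_iff.mp hw)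
    · rintro ⟨v, ⟨hv, hv0⟩, rfl⟩
      rw [norm_inv]
      exact one_le_inv₀ (norm_pos_iff.mpr hv0) |>.mpr hv
  rw [h1, sphericalArea_inv (measurableSet_closedBall.diff (measurableSet_singleton 0)) (by simp),
    ← sphericalArea_ball]
  apply setLIntegral_congr
  have h2 : closedBall (0:ℂ) 1 =ᵐ[volume] ball 0 1 := by
    apply (ae_eq_of_subset_of_measure_ge ball_subset_closedBall _ measurableSet_ball.nullMeasurableSet _).symm
    · rw [Measure.addHaar_closedBall_eq_addHaar_ball]
    · exact measure_closedBall_lt_top.ne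
  exact (sdiff_null_ae_eq_self (measure_singleton 0)).trans h2

lemma ClassS.sphericalArea_image {f : ℂ → ℂ} (hf : ClassS f) :
    sphericalArea (f '' ball 0 1) = sphericalArea (omitted f)ᶜ := by
  have h1 : (omitted f)ᶜ = (fun w : ℂ => w⁻¹) '' (f '' ball 0 1 \ {0}) := by
    ext w
    simp only [mem_compl_iff, mem_omitted_iff hf]
    constructor
    · intro h
      push Not at h
      exact ⟨w⁻¹, ⟨h.2, by simpa using h.1⟩, inv_inv w⟩
    · rintro ⟨v, ⟨hv, hv0⟩, rfl⟩
      push Not
      exact ⟨inv_ne_zero hv0, by rw [inv_inv]; exact hv⟩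
  rw [h1, sphericalArea_inv (hf.isOpen_image.measurableSet.diff (measurableSet_singleton 0)) (by simp)]
  exact setLIntegral_congr (sdiff_null_ae_eq_self (measure_singleton 0)).symm

lemma meas_weight : Measurable (fun w : ℂ => ENNReal.ofReal (4 / (1 + ‖w‖ ^ 2) ^ 2)) := by
  fun_prop

lemma weight_le {w : ℂ} (hw : w ∈ (ball (0:ℂ) 1)ᶜ) : ENNReal.ofReal (4 / (1 + ‖w‖ ^ 2) ^ 2) ≤ 1 := by
  simp only [mem_compl_iff, mem_ball, dist_zero_right, not_lt] at hw
  rw [← ENNReal.ofReal_one]
  apply ENNReal.ofReal_le_ofReal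
  rw [div_le_one (by positivity)]
  nlinarith [sq_nonneg (‖w‖ ^ 2 - 1)]

lemma weight_gt {w : ℂ} (hw : w ∈ ball (0:ℂ) 1) : 1 < ENNReal.ofReal (4 / (1 + ‖w‖ ^ 2) ^ 2) := by
  simp only [mem_ball, dist_zero_right] at hw
  rw [← ENNReal.ofReal_one]
  have h0 : 0 ≤ ‖w‖ := norm_nonneg w
  have h1 : ‖w‖ ^ 2 < 1 := by nlinarith
  have h2 : (1:ℝ) < 4 / (1 + ‖w‖ ^ 2) ^ 2 := by
    rw [lt_div_iff₀ (by positivity)]
    nlinarith [sq_nonneg (‖w‖ ^ 2)]
  exact (ENNReal.ofReal_lt_ofReal_iff (by linarith)).mpr h2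

theorem lower_and_unique {f : ℂ → ℂ} (hf : ClassS f) :
    ENNReal.ofReal (2 * π) ≤ sphericalArea (f '' ball 0 1) ∧
    (sphericalArea (f '' ball 0 1) = ENNReal.ofReal (2 * π) → ∀ z ∈ ball (0:ℂ) 1, f z = z) := by
  set E := omitted f with hE
  set D : Set ℂ := ball (0:ℂ) 1 with hD
  have hEm : MeasurableSet E := hf.isClosed_omitted.measurableSet
  have hDm : MeasurableSet D := measurableSet_ball
  have hvol := hf.volume_omitted_le
  have hDvol : volume D = ENNReal.ofReal π := by
    rw [hD, Complex.volume_ball]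
    simp only [ENNReal.ofReal_one, one_pow, one_mul]
    exact (ENNReal.ofReal_eq_coe_nnreal Real.pi_pos.le).symm
  rw [hf.sphericalArea_image]
  -- split
  have s1 : sphericalArea Eᶜ = sphericalArea (Eᶜ ∩ D) + sphericalArea (Eᶜ ∩ Dᶜ) := by
    rw [sphericalArea, ← lintegral_inter_add_sdiff _ _ hDm, Set.sdiff_eq]; rfl
  have s2 : sphericalArea Dᶜ = sphericalArea (Eᶜ ∩ Dᶜ) + sphericalArea (E ∩ Dᶜ) := by
    rw [sphericalArea, ← lintegral_inter_add_sdiff _ _ hEm, Set.sdiff_eq, inter_comm Dᶜ E, inter_comm Dᶜ Eᶜ, add_comm]; rfl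
  have a1 : sphericalArea (E ∩ Dᶜ) ≤ volume (E ∩ Dᶜ) := by
    rw [sphericalArea, ← setLIntegral_one]
    exact setLIntegral_mono measurable_const fun w hw => weight_le hw.2
  have a2 : volume (Eᶜ ∩ D) ≤ sphericalArea (Eᶜ ∩ D) := by
    rw [sphericalArea, ← setLIntegral_one]
    exact setLIntegral_mono meas_weight fun w hw => (weight_gt hw.2).le
  have a3 : volume (E ∩ Dᶜ) ≤ volume (Eᶜ ∩ D) := by
    have b1 : volume E = volume (E ∩ D) + volume (E ∩ Dᶜ) := by
      rw [← Set.sdiff_eq, measure_inter_add_sdiff _ hDm]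
    have b2 : volume D = volume (E ∩ D) + volume (Eᶜ ∩ D) := by
      rw [inter_comm E D, inter_comm Eᶜ D, ← Set.sdiff_eq, measure_inter_add_sdiff _ hEm]
    have b3 : volume (E ∩ D) + volume (E ∩ Dᶜ) ≤ volume (E ∩ D) + volume (Eᶜ ∩ D) := by
      rw [← b1, ← b2, hDvol]; exact hvol
    refine (ENNReal.add_le_add_iff_left ?_).mp b3
    exact ((measure_mono inter_subset_right).trans_lt measure_ball_lt_top).ne
  have c0 : ENNReal.ofReal (2 * π) = sphericalArea (Eᶜ ∩ Dᶜ) + sphericalArea (E ∩ Dᶜ) := by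
    rw [← s2, sphericalArea_compl_ball]
  have c1 : ENNReal.ofReal (2 * π) ≤ sphericalArea (Eᶜ ∩ Dᶜ) + volume (Eᶜ ∩ D) := by
    rw [c0]; gcongr; exact a1.trans a3
  refine ⟨?_, ?_⟩
  · rw [s1, add_comm]
    exact c1.trans (by gcongr)
  · intro heq
    have d1 : sphericalArea (Eᶜ ∩ D) ≤ volume (Eᶜ ∩ D) := by
      have : sphericalArea (Eᶜ ∩ Dᶜ) + sphericalArea (Eᶜ ∩ D) ≤ sphericalArea (Eᶜ ∩ Dᶜ) + volume (Eᶜ ∩ D) := by
        rw [add_comm, ← s1, heq]; exact c1
      refine (ENNReal.add_le_add_iff_left ?_).mp this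
      have : sphericalArea (Eᶜ ∩ Dᶜ) ≤ ENNReal.ofReal (2 * π) := by rw [c0]; exact le_self_add
      exact (this.trans_lt ENNReal.ofReal_lt_top).ne
    have d2 : volume (Eᶜ ∩ D) = 0 := by
      by_contra hne
      have hfin : volume (Eᶜ ∩ D) ≠ ⊤ := ((measure_mono inter_subset_right).trans_lt measure_ball_lt_top).ne
      have hlt : ∫⁻ w in Eᶜ ∩ D, 1 < ∫⁻ w in Eᶜ ∩ D, ENNReal.ofReal (4 / (1 + ‖w‖ ^ 2) ^ 2) := by
        apply setLIntegral_strict_mono (hEm.compl.inter hDm) hne meas_weight
        · rw [setLIntegral_one]; exact hfin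
        · exact Filter.Eventually.of_forall fun w hw => weight_gt hw.2
      rw [setLIntegral_one] at hlt
      exact absurd d1 (not_le.mpr hlt)
    have d3 : Eᶜ ∩ D = ∅ := by
      have ho : IsOpen (Eᶜ ∩ D) := hf.isClosed_omitted.isOpen_compl.inter isOpen_ball
      exact (ho.measure_eq_zero_iff volume).mp d2
    have hb : MapsTo f (ball (0:ℂ) 1) (closedBall (f 0) 1) := by
      intro z hz
      rw [hf.map_zero, mem_closedBall, dist_zero_right]
      by_contra hcon
      push Not at hcon
      have hfz : f z ≠ 0 := by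
        intro h; rw [h] at hcon; simp at hcon; linarith
      have hmem : (f z)⁻¹ ∈ Eᶜ ∩ D := by
        refine ⟨?_, ?_⟩
        · intro h
          exact h z hz (inv_mul_cancel₀ hfz)
        · rw [hD, mem_ball, dist_zero_right, norm_inv]
          exact inv_lt_one_of_one_lt₀ hcon
      rw [d3] at hmem
      exact hmem
    have hs := Complex.affine_of_mapsTo_ball_of_norm_dslope_eq_div hf.analytic hb
      (show (0:ℂ) ∈ ball (0:ℂ) 1 by simp) (by rw [dslope_same, hf.deriv_zero]; simp)
    intro z hz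
    have := hs hz
    rw [dslope_same, hf.deriv_zero, hf.map_zero] at this
    simpa using this


/-- Sanity check: the area of the image equals the pulled back integral over the disc. -/
lemma imageArea_eq {f : ℂ → ℂ} (hf : ClassS f) :
    imageArea f = ∫⁻ z in ball (0:ℂ) 1,
      ENNReal.ofReal (4 * ‖deriv f z‖ ^ 2 / (1 + ‖f z‖ ^ 2) ^ 2) := by
  rw [imageArea, sphericalArea, lintegral_image_complex measurableSet_ball (g' := deriv f)
    (fun x hx => (hf.analytic.differentiableAt (isOpen_ball.mem_nhds hx)).hasDerivAt) hf.univalent]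
  apply setLIntegral_congr_fun measurableSet_ball
  intro z _
  simp only
  rw [← ENNReal.ofReal_mul (by positivity)]
  congr 1
  ring

lemma classS_id : ClassS (fun z => z) where
  analytic := differentiableOn_id
  univalent := fun _ _ _ _ h => h
  map_zero := rfl
  deriv_zero := by simp

lemma imageArea_of_eqOn {f : ℂ → ℂ} (h : ∀ z ∈ ball (0:ℂ) 1, f z = z) :
    imageArea f = ENNReal.ofReal (2 * π) := by
  have h1 : f '' ball 0 1 = ball 0 1 := by
    rw [image_congr h]; simp
  rw [imageArea, h1, sphericalArea_ball]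

/-- The least spherical area of the image of the disc under a function of the class `S` is
`2 * π`, and it is attained only by the identity. -/
theorem result :
    IsLeast {a : ℝ≥0∞ | ∃ f : ℂ → ℂ, ClassS f ∧ a = imageArea f} (ENNReal.ofReal (2 * π)) ∧
    ∀ f : ℂ → ℂ, ClassS f →
      (imageArea f = ENNReal.ofReal (2 * π) ↔ ∀ z ∈ ball (0:ℂ) 1, f z = z) := by
  refine ⟨⟨⟨fun z => z, classS_id, (imageArea_of_eqOn fun _ _ => rfl).symm⟩, ?_⟩, ?_⟩
  · rintro a ⟨f, hf, rfl⟩
    exact (lower_and_unique hf).1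
  · intro f hf
    exact ⟨(lower_and_unique hf).2, imageArea_of_eqOn⟩

end Pool.Agent.Results.MP_ad51a3_an.MinSphericalArea
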